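import Pool.Agent.U722.FF.Stm

/-!
# Project FF, package FP1: transitive permutation modules are finitely presented
-/

set_option autoImplicit false

namespace Pool.Agent.U423.FFP

open U722.FF MulAction

variable {G X : Type} [Group G] [MulAction G X]

/-- the left ideal of the elements `s - 1` -/
noncomputable def idl (x : X) (S : Set ↥(stabilizer G x)) :
    Submodule (MonoidAlgebra ℤ G) (MonoidAlgebra ℤ G) :=
  Submodule.span _ ((fun s : ↥(stabilizer G x) => MonoidAlgebra.of ℤ G (s : G) - 1) '' S)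

theorem idl_stab {x : X} {S : Set ↥(stabilizer G x)} (hS : Subgroup.closure S = ⊤)
    (h : ↥(stabilizer G x)) : MonoidAlgebra.of ℤ G (h : G) - 1 ∈ idl x S := by
  have hh : h ∈ Subgroup.closure S := hS ▸ Subgroup.mem_top h
  induction hh using Subgroup.closure_induction with
  | mem s hs => exact Submodule.subset_span ⟨s, hs, rfl⟩
  | one =>
    rw [Subgroup.coe_one, map_one, sub_self]
    exact Submodule.zero_mem _
  | mul a b _ _ ha hb =>
    have h1 : MonoidAlgebra.of ℤ G ((a * b : ↥(stabilizer G x)) : G) - 1 =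
        MonoidAlgebra.of ℤ G (a : G) • (MonoidAlgebra.of ℤ G (b : G) - 1) +
          (MonoidAlgebra.of ℤ G (a : G) - 1) := by
      rw [Subgroup.coe_mul, map_mul, smul_eq_mul, mul_sub, mul_one]
      abel
    rw [h1]
    exact Submodule.add_mem _ (Submodule.smul_mem _ _ hb) ha
  | inv a _ ha =>
    have h1 : MonoidAlgebra.of ℤ G ((a⁻¹ : ↥(stabilizer G x)) : G) - 1 =
        -(MonoidAlgebra.of ℤ G ((a : G)⁻¹) • (MonoidAlgebra.of ℤ G (a : G) - 1)) := by
      rw [Subgroup.coe_inv, smul_eq_mul, mul_sub, mul_one, ← map_mul, inv_mul_cancel, map_one]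
      abel
    rw [h1]
    exact Submodule.neg_mem _ (Submodule.smul_mem _ _ ha)

theorem idl_eq {x : X} {S : Set ↥(stabilizer G x)} (hS : Subgroup.closure S = ⊤) {a b : G}
    (hab : a • x = b • x) : MonoidAlgebra.of ℤ G a - MonoidAlgebra.of ℤ G b ∈ idl x S := by
  have hmem : b⁻¹ * a ∈ stabilizer G x := by
    rw [mem_stabilizer_iff, mul_smul, hab, inv_smul_smul]
  have h1 : MonoidAlgebra.of ℤ G a - MonoidAlgebra.of ℤ G b =
      MonoidAlgebra.of ℤ G b • (MonoidAlgebra.of ℤ G (b⁻¹ * a) - 1) := by
    rw [smul_eq_mul, mul_sub, mul_one, ← map_mul, mul_inv_cancel_left]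
  rw [h1]
  exact Submodule.smul_mem _ _ (idl_stab hS ⟨b⁻¹ * a, hmem⟩)

theorem t_FP1 : S_FP1 := by
  intro G X _ _ x htr hfg
  obtain ⟨S, hS, hSf⟩ := Group.fg_iff.1 hfg
  set e : MonoidAlgebra ℤ G →ₗ[MonoidAlgebra ℤ G] PM G X :=
    LinearMap.toSpanSingleton (MonoidAlgebra ℤ G) (PM G X) (pt G x) with he
  have hea : ∀ r, e r = r • pt G x := fun r => rfl
  have hsurj : Function.Surjective e := by
    intro m
    have h1 : m ∈ LinearMap.range e := by
      induction m using PM_induction with
      | h0 => exact Submodule.zero_mem _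
      | h1 y =>
        obtain ⟨g, rfl⟩ := htr y
        exact ⟨MonoidAlgebra.of ℤ G g, by rw [hea, of_smul_pt]⟩
      | h2 a b ha hb => exact Submodule.add_mem _ ha hb
      | h3 a ha => exact Submodule.neg_mem _ ha
    exact h1
  choose c hc using htr
  have hker : LinearMap.ker e = idl x S := by
    apply le_antisymm
    · intro r hr
      rw [LinearMap.mem_ker, hea] at hr
      have hf : ∀ (g : G) (y : X),
          (Submodule.Quotient.mk (MonoidAlgebra.of ℤ G (c (g • y))) : MonoidAlgebra ℤ G ⧸ idl x S) =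
          MonoidAlgebra.of ℤ G g • Submodule.Quotient.mk (MonoidAlgebra.of ℤ G (c y)) := by
        intro g y
        rw [← Submodule.Quotient.mk_smul, Submodule.Quotient.eq, smul_eq_mul, ← map_mul]
        apply idl_eq hS
        rw [hc, mul_smul, hc]
      set ψ := PMlift (G := G) (X := X)
        (fun y => (Submodule.Quotient.mk (MonoidAlgebra.of ℤ G (c y)) :
          MonoidAlgebra ℤ G ⧸ idl x S)) hf with hψ
      have h1 : ψ (pt G x) = Submodule.Quotient.mk 1 := by
        rw [hψ, PMlift_pt, Submodule.Quotient.eq, ← map_one (MonoidAlgebra.of ℤ G)]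
        apply idl_eq hS
        rw [hc, one_smul]
      have h2 : (Submodule.Quotient.mk r : MonoidAlgebra ℤ G ⧸ idl x S) = 0 := by
        have h3 : r = r • (1 : MonoidAlgebra ℤ G) := by rw [smul_eq_mul, mul_one]
        rw [h3, Submodule.Quotient.mk_smul, ← h1, ← map_smul, hr, map_zero]
      exact (Submodule.Quotient.mk_eq_zero _).1 h2
    · unfold idl
      rw [Submodule.span_le]
      rintro _ ⟨s, _, rfl⟩
      rw [SetLike.mem_coe, LinearMap.mem_ker, hea, sub_smul, of_smul_pt, one_smul,
        mem_stabilizer_iff.1 s.2, sub_self]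
  refine Module.finitePresentation_of_surjective e hsurj ?_
  rw [hker]
  exact Submodule.fg_span (hSf.image _)

end Pool.Agent.U423.FFP
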